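import Pool.Agent.Y217.PB.Stm

/-! Project PB (tight topological surfaces), task B: extending cocycles over punctures, parity. -/

set_option autoImplicit false

universe u

namespace Pool.Agent.Y32.PB

open Set Topology Metric
open Pool.Agent.Helper775.Surf Pool.Agent.Helper775.Clo Pool.Agent.Y217.PB
open scoped InnerProductSpace

/-- trivializations depend only on the germs of the cocycle near the diagonal -/
theorem triv_congr {M : Type u} [TopologicalSpace M] {Z : Set M} {t t' : M → M → ZMod 2}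
    {s : M → ZMod 2} (h : ∀ x ∈ Z, ∃ U ∈ 𝓝 x, ∀ a ∈ U, ∀ b ∈ U, t' a b = t a b)
    (hs : Triv Z t s) : Triv Z t' s := by
  intro x hx
  obtain ⟨U, hU, hUt⟩ := h x hx
  obtain ⟨V, hV, hVs⟩ := hs x hx
  refine ⟨U ∩ V, Filter.inter_mem hU hV, fun a ha b hb => ?_⟩
  rw [hUt a ha.1 b hb.1]
  exact hVs a ha.2 b hb.2

/-- adding a function which is a coboundary near the punctured point does not change
essentiality -/
theorem ess_add_punct {M : Type u} [TopologicalSpace M] {y : M} {v t : M → M → ZMod 2}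
    (hv : Ess y v) {O : Set M} (hO : O ∈ 𝓝 y) (ht : Null (O \ {y}) t) : Ess y (v + t) := by
  intro W hW hn
  apply hv (W ∩ O) (Filter.inter_mem hW hO)
  have h1 : Null ((W ∩ O) \ {y}) (v + t) := hn.mono (fun x hx => ⟨hx.1.1, hx.2⟩)
  have h2 : Null ((W ∩ O) \ {y}) t := ht.mono (fun x hx => ⟨hx.1.2, hx.2⟩)
  have h3 := h1.add h2
  have e : v + t + t = v := by
    rw [add_assoc, add_self_co, add_zero]
  rwa [e] at h3

theorem not_ess_iff {M : Type u} [TopologicalSpace M] {y : M} {v : M → M → ZMod 2} :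
    ¬ Ess y v ↔ ∃ W ∈ 𝓝 y, Null (W \ {y}) v := by
  unfold Ess
  push Not
  rfl

/-- essentiality only depends on the germs near the diagonal -/
theorem ess_congr {M : Type u} [TopologicalSpace M] {y : M} {t t' : M → M → ZMod 2} {W : Set M}
    (hW : W ∈ 𝓝 y) (h : ∀ x ∈ W \ {y}, ∃ U ∈ 𝓝 x, ∀ a ∈ U, ∀ b ∈ U, t' a b = t a b)
    (hn : ¬ Ess y t) : ¬ Ess y t' := by
  rw [not_ess_iff] at hn ⊢
  obtain ⟨V, hV, s, hs⟩ := hn
  exact ⟨W ∩ V, Filter.inter_mem hW hV, s, triv_congr (fun x hx => h x ⟨hx.1.1, hx.2⟩)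
    (hs.mono (fun x hx => ⟨hx.1.2, hx.2⟩))⟩

theorem ext_fin {M : Type u} [TopologicalSpace M] [CompactSpace M] [T2Space M] {Z F : Set M}
    (hF : F.Finite) {t : M → M → ZMod 2} (ht : Coc Z t) (h : ∀ y ∈ F, ¬ Ess y t) :
    ∃ t' : M → M → ZMod 2, Coc (Z ∪ F) t' ∧
      ∀ x, x ∉ F → ∃ U ∈ 𝓝 x, ∀ a ∈ U, ∀ b ∈ U, t' a b = t a b := by
  induction F, hF using Set.Finite.induction_on with
  | empty =>
    refine ⟨t, by rwa [union_empty], fun x _ => ⟨univ, Filter.univ_mem, fun a _ b _ => rfl⟩⟩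
  | @insert y F hy hF ih =>
    obtain ⟨t1, h1, h1l⟩ := ih (fun z hz => h z (mem_insert_of_mem y hz))
    obtain ⟨U0, hU0, hU0t⟩ := h1l y hy
    have hne : ¬ Ess y t1 := by
      obtain ⟨V, hVU, hVo, hyV⟩ := mem_nhds_iff.1 hU0
      refine ess_congr (hVo.mem_nhds hyV) (fun x hx => ?_) (h y (mem_insert y F))
      exact ⟨V, hVo.mem_nhds hx.1, fun a ha b hb => hU0t a (hVU ha) b (hVU hb)⟩
    rw [not_ess_iff] at hne
    obtain ⟨t2, h2, h2l⟩ := ext_aux845 y h1 hne
    refine ⟨t2, h2.mono ?_, ?_⟩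
    · rintro x (hx | hx)
      · exact Or.inr (Or.inl hx)
      · rcases hx with rfl | hx
        · exact Or.inl rfl
        · exact Or.inr (Or.inr hx)
    · intro x hx
      obtain ⟨U, hU, hUt⟩ := h2l x (fun h => hx (h ▸ mem_insert y F))
      obtain ⟨V, hV, hVt⟩ := h1l x (fun h => hx (mem_insert_of_mem y h))
      refine ⟨U ∩ V, Filter.inter_mem hU hV, fun a ha b hb => ?_⟩
      rw [hUt a ha.1 b hb.1, hVt a ha.2 b hb.2]

theorem ext : JExt.{u} := by
  intro M _ _ _ Y Y' t hY hY' ht h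
  obtain ⟨t', h1, h2⟩ := ext_fin (hY.subset diff_subset) ht
    (fun y (hy : y ∈ Y \ Y') => h y hy.1 hy.2)
  refine ⟨t', h1.mono ?_, fun x hx => h2 x (fun h => hx h.1)⟩
  intro x hx
  by_cases hxY : x ∈ Y
  · exact Or.inr ⟨hxY, hx⟩
  · exact Or.inl hxY

theorem essAdd : JEssAdd.{u} := by
  intro M _ _ _ y O t t' hy hO hyO ht ht'
  by_cases h1 : Ess y t
  · by_cases h2 : Ess y t'
    · have h3 : ¬ Ess y (t + t') := by
        rw [not_ess_iff]
        exact ess_add hy hO hyO ht ht' h1 h2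
      simp only [h1, h2, h3, not_true_eq_false]
    · have h2' := not_ess_iff.1 h2
      obtain ⟨W, hW, hn⟩ := h2'
      have h3 : Ess y (t + t') := ess_add_punct h1 hW hn
      simp only [h1, h2, h3, iff_false, not_true_eq_false, not_false_eq_true]
  · have h1' := not_ess_iff.1 h1
    obtain ⟨W, hW, hn⟩ := h1'
    by_cases h2 : Ess y t'
    · have h3 : Ess y (t + t') := by
        rw [add_comm]
        exact ess_add_punct h2 hW hn
      simp only [h1, h2, h3, iff_true, not_false_eq_true]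
    · have h2' := not_ess_iff.1 h2
      obtain ⟨W', hW', hn'⟩ := h2'
      have h3 : ¬ Ess y (t + t') := by
        rw [not_ess_iff]
        refine ⟨W ∩ W', Filter.inter_mem hW hW', Null.add (hn.mono ?_) (hn'.mono ?_)⟩
        · exact fun x hx => ⟨hx.1.1, hx.2⟩
        · exact fun x hx => ⟨hx.1.2, hx.2⟩
      simp only [h1, h2, h3, not_true_eq_false]

theorem parity : JParity.{u} := by
  intro M _ _ _ _ N f S Y y t hY hyY ht h
  obtain ⟨t', h1, h2⟩ := ext M Y {y} t hY (singleton_subset_iff.2 hyY) ht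
    (fun y' hy' hne => h y' hy' (fun e => hne (mem_singleton_iff.2 e)))
  have h3 : ¬ Ess y t' := not_ess S h1
  have hcl : IsClosed (Y \ {y}) := (hY.subset diff_subset).isClosed
  have hmem : y ∈ (Y \ {y})ᶜ := fun h => h.2 rfl
  refine ess_congr (hcl.isOpen_compl.mem_nhds hmem) (fun x hx => ?_) h3
  obtain ⟨U, hU, hUt⟩ := h2 x (fun hxY => hx.1 ⟨hxY, hx.2⟩)
  exact ⟨U, hU, fun a ha b hb => (hUt a ha b hb).symm⟩

end Pool.Agent.Y32.PB
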