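import Pool.Agent.Y217.PB.Stm

/-! Project PB (tight topological surfaces), task C: an arc separates locally at its inner points. -/

set_option autoImplicit false

universe u

namespace Pool.Agent.Y32.PB

open Set Topology Metric
open Pool.Agent.Helper775.Surf Pool.Agent.Helper775.Clo Pool.Agent.Y217.PB
open scoped InnerProductSpace

/-- adding a function which is a coboundary near the point does not change essentiality -/
theorem ess_add_null {M : Type u} [TopologicalSpace M] {y : M} {v t : M → M → ZMod 2}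
    (hv : Ess y v) {O : Set M} (hO : O ∈ 𝓝 y) (ht : Null O t) : Ess y (v + t) := by
  intro W hW hn
  apply hv (W ∩ O) (Filter.inter_mem hW hO)
  have h1 : Null ((W ∩ O) \ {y}) (v + t) := hn.mono (fun x hx => ⟨hx.1.1, hx.2⟩)
  have h2 : Null ((W ∩ O) \ {y}) t := ht.mono (fun x hx => hx.1.2)
  have h3 := h1.add h2
  have e : v + t + t = v := by
    rw [add_assoc, add_self_co, add_zero]
  rwa [e] at h3

/-- classes essential at `m` and `q`, and trivial away from a closed set with these two points -/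
theorem arc_class {M : Type u} [TopologicalSpace M] [CompactSpace M] [T2Space M]
    [ConnectedSpace M] [LocallyPathConnectedSpace M] {N : ℕ} {f : M → EuclideanSpace ℝ (Fin N)}
    (S : CSetup f) {A : Set M} (hA : IsClosed A) (hc : IsPreconnected A)
    (hco : IsPreconnected (Aᶜ : Set M)) {m q : M} (hm : m ∈ A) (hq : q ∈ A) (hne : m ≠ q) :
    ∃ (v : M → M → ZMod 2) (s : M → ZMod 2), Coc ({m, q}ᶜ : Set M) v ∧ Triv (Aᶜ : Set M) v s ∧
      Ess m v ∧ Ess q v := by
  obtain ⟨v, hv, -, hm', hq'⟩ := pair_ex S.pt S.pun isOpen_univ isPreconnected_univ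
    (mem_univ m) (mem_univ q) hne
  obtain ⟨t, ht, s, hs⟩ := pair_cpt S.pt S.pun S.fin hA hc hco hm hq hne hv hm' hq'
  have hloc : ∀ y : M, ∃ D ∈ 𝓝 y, Null D t := by
    intro y
    obtain ⟨D, ψ, φ, hyD, _, hch⟩ := S.pt y
    exact ⟨D, hch.isOpen.mem_nhds hyD, chart_null hch (convex_ball 0 1) (ht.mono (subset_univ _))⟩
  obtain ⟨D, hD, hDn⟩ := hloc m
  obtain ⟨D', hD', hDn'⟩ := hloc q
  exact ⟨v + t, s, hv.add (ht.mono (subset_univ _)), hs, ess_add_null hm' hD hDn,
    ess_add_null hq' hD' hDn'⟩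

theorem loc (hA : JArc.{u}) (hE : JExt.{u}) (hC : JAcycCompl.{u}) : JLoc.{u} := by
  intro M _ _ _ _ _ _ N f S A p q m D ψ φ hArc hmA hmp hmq hch hpD hqD B hBo hBD hmB hcon
  obtain ⟨hpq, -, -, -, -, hcut⟩ := hA M A p q hArc
  obtain ⟨A₀, A₁, h0, h1, hun, hin⟩ := hcut m hmA hmp hmq
  obtain ⟨-, h0c, h0a, -⟩ := hA M A₀ p m h0
  obtain ⟨-, h1c, h1a, -⟩ := hA M A₁ m q h1
  obtain ⟨v₀, s₀, hv0, hs0, he0, -⟩ := arc_class S h0.closed h0c (hC M N f S A₀ h0.closed h0a)
    h0.q_mem h0.p_mem hmp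
  obtain ⟨v₁, s₁, hv1, hs1, he1, -⟩ := arc_class S h1.closed h1c (hC M N f S A₁ h1.closed h1a)
    h1.p_mem h1.q_mem hmq
  -- the sum is not essential at `m`
  have hO : IsOpen ({p, q}ᶜ : Set M) := (Set.toFinite {p, q}).isClosed.isOpen_compl
  have hmO : m ∈ ({p, q}ᶜ : Set M) := by
    rintro (h | h)
    · exact hmp h
    · exact hmq h
  have hc0 : Coc (({p, q}ᶜ : Set M) \ {m}) v₀ := hv0.mono (by
    rintro x ⟨hx, hxm⟩ (h | h)
    · exact hxm h
    · exact hx (Or.inl h))
  have hc1 : Coc (({p, q}ᶜ : Set M) \ {m}) v₁ := hv1.mono (by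
    rintro x ⟨hx, hxm⟩ (h | h)
    · exact hxm h
    · exact hx (Or.inr h))
  obtain ⟨W, hW, hWn⟩ := ess_add (S.pt m) hO hmO hc0 hc1 he0 he1
  obtain ⟨w, hw, hwl⟩ := hE M ({m, p, q} : Set M) ({p, q} : Set M) (v₀ + v₁) (Set.toFinite _)
    (fun x hx => Or.inr hx) ((hc0.add hc1).mono (by
      intro x hx
      refine ⟨fun h => hx (Or.inr h), fun h => hx (Or.inl h)⟩)) (by
      intro y hy hy' hess
      rcases hy with rfl | hy
      · exact hess W hW hWn
      · exact hy' hy)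
  have hDw : Null D w := chart_null hch (convex_ball 0 1) (hw.mono (by
    rintro x hx (rfl | h)
    · exact hpD hx
    · rw [mem_singleton_iff] at h
      rw [h] at hx
      exact hqD hx))
  obtain ⟨r, hr⟩ := hDw
  have hr' : Triv (D \ {m}) (v₀ + v₁) r := by
    intro x hx
    obtain ⟨U, hU, hUw⟩ := hwl x (by
      rintro (h | h | h)
      · exact hx.2 h
      · rw [h] at hx; exact hpD hx.1
      · rw [mem_singleton_iff] at h
        rw [h] at hx; exact hqD hx.1)
    obtain ⟨V, hV, hVr⟩ := hr x hx.1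
    refine ⟨U ∩ V, Filter.inter_mem hU hV, fun a ha b hb => ?_⟩
    rw [← hUw a ha.1 b hb.1]
    exact hVr a ha.2 b hb.2
  have hmA0 : m ∈ A₀ := h0.q_mem
  have hmA1 : m ∈ A₁ := h1.p_mem
  -- the constant
  have ht1 : Triv (B \ A) (v₀ + v₁) (s₀ + s₁) := by
    refine Triv.add (hs0.mono ?_) (hs1.mono ?_)
    · intro x hx h
      exact hx.2 (hun ▸ Or.inl h)
    · intro x hx h
      exact hx.2 (hun ▸ Or.inr h)
  have ht2 : Triv (B \ A) (v₀ + v₁) r := hr'.mono (by
    intro x hx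
    refine ⟨hBD hx.1, fun h => ?_⟩
    rw [mem_singleton_iff] at h
    rw [h] at hx
    exact hx.2 hmA)
  obtain ⟨c, hcc⟩ := triv_uniq hcon ht1 ht2
  have hU : IsOpen (B \ A₁) := hBo.sdiff h1.closed
  have hV : IsOpen (B \ A₀) := hBo.sdiff h0.closed
  have hT1 : Triv (B \ A₁) v₁ s₁ := hs1.mono (fun x hx => hx.2)
  have hT0 : Triv (B \ A₀) v₁ (s₀ + r) := by
    have e1 : Triv (B \ A₀) v₀ s₀ := hs0.mono (fun x hx => hx.2)
    have e2 : Triv (B \ A₀) (v₀ + v₁) r := hr'.mono (by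
      intro x hx
      refine ⟨hBD hx.1, fun h => ?_⟩
      rw [mem_singleton_iff] at h
      rw [h] at hx
      exact hx.2 hmA0)
    have e3 := e1.add e2
    have e4 : v₀ + (v₀ + v₁) = v₁ := by
      rw [← add_assoc, add_self_co, zero_add]
    rwa [e4] at e3
  have hfin : Null (B \ {m}) v₁ := by
    refine (null_union hU hV hT1 hT0 (k := c) ?_).mono ?_
    · intro x hx
      have hxA : x ∈ B \ A := by
        refine ⟨hx.1.1, fun h => ?_⟩
        rw [← hun] at h
        rcases h with h | h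
        · exact hx.2.2 h
        · exact hx.1.2 h
      have e := hcc x hxA
      have e' : (s₀ + s₁) x = s₀ x + s₁ x := rfl
      have e'' : (s₀ + r) x = s₀ x + r x := rfl
      rw [e'] at e
      rw [e'', ← e]
      ring
    · intro x hx
      by_cases h : x ∈ A₁
      · refine Or.inr ⟨hx.1, fun h' => hx.2 ?_⟩
        have : x ∈ A₀ ∩ A₁ := ⟨h', h⟩
        rwa [hin] at this
      · exact Or.inl ⟨hx.1, h⟩
  exact he1 B (hBo.mem_nhds hmB) hfin

end Pool.Agent.Y32.PB
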