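import Pool.Agent.Y217.PB.Stm
import Pool.Agent.Y32.PB.Ext

/-! Project PB (tight topological surfaces), task G: at most two components at an edge. -/

set_option autoImplicit false

universe u

namespace Pool.Agent.Y32.PB

open Set Topology Metric
open Pool.Agent.Helper775.Surf Pool.Agent.Helper775.Clo Pool.Agent.Y217.PB
open scoped InnerProductSpace

section graph

variable {M : Type u} [TopologicalSpace M] {ι κ : Type} [Finite ι] [Finite κ]
  {Γ : FGraph M ι κ}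

theorem off_closed (hΓ : Γ.Good) (k : κ) : IsClosed (Γ.off k) := by
  refine IsClosed.union (isClosed_iUnion_of_finite (fun i => (hΓ.fat i).closed)) ?_
  exact (Set.toFinite {l : κ | l ≠ k}).isClosed_biUnion (fun l _ => (hΓ.arc l).closed)

theorem pts_eq (Γ : FGraph M ι κ) (k : κ) : Γ.pts = Γ.off k ∪ Γ.A k := by
  unfold FGraph.pts FGraph.off
  ext x
  simp only [mem_union, mem_iUnion, mem_setOf_eq, exists_prop]
  constructor
  · rintro (h | ⟨l, hl⟩)
    · exact Or.inl (Or.inl h)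
    · by_cases hlk : l = k
      · exact Or.inr (hlk ▸ hl)
      · exact Or.inl (Or.inr ⟨l, hlk, hl⟩)
  · rintro ((h | ⟨l, _, hl⟩) | h)
    · exact Or.inl h
    · exact Or.inr ⟨l, hl⟩
    · exact Or.inr ⟨k, h⟩

theorem pts_closed (hΓ : Γ.Good) : IsClosed Γ.pts := by
  refine IsClosed.union (isClosed_iUnion_of_finite (fun i => (hΓ.fat i).closed)) ?_
  exact isClosed_iUnion_of_finite (fun l => (hΓ.arc l).closed)

theorem off_inter (hΓ : Γ.Good) (k : κ) {x : M} (hx : x ∈ Γ.off k) (hxk : x ∈ Γ.A k) :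
    x = Γ.p0 k ∨ x = Γ.p1 k := by
  rcases hx with hx | hx
  · obtain ⟨i, hi⟩ := mem_iUnion.1 hx
    exact hΓ.inter k i x hxk hi
  · simp only [mem_iUnion, mem_setOf_eq, exists_prop] at hx
    obtain ⟨l, hlk, hl⟩ := hx
    obtain ⟨i, hi⟩ := hΓ.ee k l x (Ne.symm hlk) hxk hl
    exact hΓ.inter k i x hxk hi

theorem opn_off (hΓ : Γ.Good) (k : κ) {x : M} (hx : x ∈ Γ.opn k) : x ∉ Γ.off k :=
  fun h => hx.2 (by
    rcases off_inter hΓ k h hx.1 with h | h
    · exact Or.inl h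
    · exact Or.inr h)

theorem p0_off (hΓ : Γ.Good) (k : κ) : Γ.p0 k ∈ Γ.off k :=
  Or.inl (mem_iUnion.2 ⟨Γ.i0 k, hΓ.m0 k⟩)

theorem p1_off (hΓ : Γ.Good) (k : κ) : Γ.p1 k ∈ Γ.off k :=
  Or.inl (mem_iUnion.2 ⟨Γ.i1 k, hΓ.m1 k⟩)

theorem off_sub (Γ : FGraph M ι κ) (k : κ) : Γ.off k ⊆ Γ.pts := by
  rw [pts_eq Γ k]; exact subset_union_left

theorem A_sub (Γ : FGraph M ι κ) (k : κ) : Γ.A k ⊆ Γ.pts := by
  rw [pts_eq Γ k]; exact subset_union_right

end graph

/-- members of `comps` are the components of their points -/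
theorem comps_eq {M : Type u} [TopologicalSpace M] {G C : Set M} (hC : C ∈ comps G) {x : M}
    (hx : x ∈ C) : C = connectedComponentIn Gᶜ x := by
  obtain ⟨y, hy, rfl⟩ := hC
  exact connectedComponentIn_eq hx

theorem comps_sub {M : Type u} [TopologicalSpace M] {G C : Set M} (hC : C ∈ comps G) :
    C ⊆ Gᶜ := by
  obtain ⟨y, hy, rfl⟩ := hC
  exact connectedComponentIn_subset _ _

theorem comps_conn {M : Type u} [TopologicalSpace M] {G C : Set M} (hC : C ∈ comps G) :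
    IsPreconnected C := by
  obtain ⟨y, hy, rfl⟩ := hC
  exact isPreconnected_connectedComponentIn

theorem comps_ne {M : Type u} [TopologicalSpace M] {G C : Set M} (hC : C ∈ comps G) :
    C.Nonempty := by
  obtain ⟨y, hy, rfl⟩ := hC
  exact ⟨y, mem_connectedComponentIn hy⟩

theorem comps_disj {M : Type u} [TopologicalSpace M] {G C C' : Set M} (hC : C ∈ comps G)
    (hC' : C' ∈ comps G) (hne : C ≠ C') {x : M} (hx : x ∈ C) : x ∉ C' :=
  fun h => hne ((comps_eq hC hx).trans (comps_eq hC' h).symm)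

/-- no jump: glueing -/
theorem glue_pts (hG : JGlue.{u}) {M : Type u} [TopologicalSpace M] [CompactSpace M] [T2Space M]
    {ι κ : Type} [Finite ι] [Finite κ] {Γ : FGraph M ι κ} (hΓ : Γ.Good) (k : κ)
    {v : M → M → ZMod 2} {s s' : M → ZMod 2} (hs : Triv (Γ.off k) v s) (hs' : Triv (Γ.A k) v s')
    (h : s (Γ.p0 k) + s' (Γ.p0 k) = s (Γ.p1 k) + s' (Γ.p1 k)) : Null Γ.pts v := by
  have key : ∀ a b c : ZMod 2, a + b = c → a = b + c := by decide
  obtain ⟨σ, hσ, -, -⟩ := hG M (Γ.off k) (Γ.A k) v s (fun x => s' x + (s (Γ.p0 k) + s' (Γ.p0 k)))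
    (off_closed hΓ k) (hΓ.arc k).closed hs (hs'.add_const _) (by
      rintro x ⟨hx, hxk⟩
      rcases off_inter hΓ k hx hxk with rfl | rfl
      · exact key _ _ _ rfl
      · rw [h]
        exact key _ _ _ rfl)
  rw [pts_eq Γ k]
  exact ⟨σ, hσ⟩

/-- a class without jump, essential at `x` and with singularities only at `x`, `x'` -/
theorem no_sep (hS : JSep.{u}) {M : Type u} [TopologicalSpace M] [CompactSpace M] [T2Space M]
    [ConnectedSpace M] [LocallyPathConnectedSpace M] {N : ℕ} {f : M → EuclideanSpace ℝ (Fin N)}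
    (S : CSetup f) {G C C' : Set M} (hG : IsClosed G) (hC : C ∈ comps G) (hC' : C' ∈ comps G)
    (hne : C ≠ C') {x x' : M} (hx : x ∈ C) (hx' : x' ∈ C') {v : M → M → ZMod 2}
    (hv : Coc ({x, x'}ᶜ : Set M) v) (he : Ess x v) (hn : Null G v) : False := by
  have hxx : x ≠ x' := fun h => comps_disj hC hC' hne hx (h ▸ hx')
  have h1 := hS M N f S G x x' v 0 hG (comps_sub hC hx) (comps_sub hC' hx') hxx hv he
    (coc_zero univ) (by rw [add_zero]; exact hn)
  exact hne ((comps_eq hC hx).trans (h1.trans (comps_eq hC' hx').symm))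

theorem pair (hG : JGlue.{u}) (hA : JArc.{u}) (hS : JSep.{u}) : JPair.{u} := by
  intro M _ _ _ _ _ _ N f S ι κ _ _ Γ hΓ k C hC C' hC' hne hadj hadj' x hx x' hx'
  obtain ⟨-, -, hAc, hop, -, -⟩ := hA M (Γ.A k) (Γ.p0 k) (Γ.p1 k) (hΓ.arc k)
  obtain ⟨z, hz, hzo⟩ := hadj
  obtain ⟨z', hz', hzo'⟩ := hadj'
  have hxx : x ≠ x' := fun h => comps_disj hC hC' hne hx (h ▸ hx')
  -- the open set
  have hOo : IsOpen (connectedComponentIn (Γ.off k)ᶜ z) :=
    (off_closed hΓ k).isOpen_compl.connectedComponentIn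
  have hOc : IsPreconnected (connectedComponentIn (Γ.off k)ᶜ z) :=
    isPreconnected_connectedComponentIn
  have hsub : ∀ (C₀ : Set M), C₀ ∈ comps Γ.pts → ∀ z₀, z₀ ∈ closure C₀ → z₀ ∈ Γ.opn k →
      C₀ ⊆ connectedComponentIn (Γ.off k)ᶜ z := by
    intro C₀ hC₀ z₀ hz₀ hzo₀
    have h1 : IsPreconnected (insert z₀ C₀) :=
      (comps_conn hC₀).subset_closure (subset_insert z₀ C₀)
        (insert_subset hz₀ subset_closure)
    have h2 : IsPreconnected (insert z₀ C₀ ∪ Γ.opn k) :=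
      h1.union z₀ (mem_insert z₀ C₀) hzo₀ hop
    have h3 : insert z₀ C₀ ∪ Γ.opn k ⊆ (Γ.off k)ᶜ := by
      rintro y ((rfl | hy) | hy)
      · exact opn_off hΓ k hzo₀
      · exact fun h => comps_sub hC₀ hy (off_sub Γ k h)
      · exact opn_off hΓ k hy
    have h4 := h2.subset_connectedComponentIn (Or.inr hzo) h3
    exact fun y hy => h4 (Or.inl (mem_insert_of_mem z₀ hy))
  have hxO := hsub C hC z hz hzo hx
  have hxO' := hsub C' hC' z' hz' hzo' hx'
  obtain ⟨v, hv, hvn, he, he'⟩ := pair_ex S.pt S.pun hOo hOc hxO hxO' hxx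
  obtain ⟨s, hs⟩ := hvn.mono (fun y (hy : y ∈ Γ.off k) (h : y ∈ connectedComponentIn _ z) =>
    connectedComponentIn_subset _ _ h hy)
  obtain ⟨s', hs'⟩ := hAc v (hv.mono (by
    rintro y hy (rfl | h)
    · exact comps_sub hC hx (A_sub Γ k hy)
    · rw [mem_singleton_iff] at h
      rw [h] at hy
      exact comps_sub hC' hx' (A_sub Γ k hy)))
  refine ⟨v, hv, he, he', s, s', hs, hs', fun hj => ?_⟩
  exact no_sep hS S (pts_closed hΓ) hC hC' hne hx hx' hv he (glue_pts hG hΓ k hs hs' hj)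

theorem chart_nbhd {M : Type u} [TopologicalSpace M] {Z : Set M} {t : M → M → ZMod 2} {y : M}
    (hy : IntPt y) (hZ : Z ∈ 𝓝 y) (ht : Coc Z t) : ∃ D ∈ 𝓝 y, Null D t := by
  obtain ⟨D, ψ, φ, hyD, _, hch, hDZ⟩ := small_int hy hZ
  exact ⟨D, hch.isOpen.mem_nhds hyD, chart_null hch (convex_ball 0 1) (ht.mono hDZ)⟩

theorem two (hG : JGlue.{u}) (hA : JArc.{u}) (hS : JSep.{u}) (hX : JExt.{u}) (hE : JEssAdd.{u}) :
    JTwo.{u} := by
  intro M _ _ _ _ _ _ N f S ι κ _ _ Γ hΓ k C₁ h1 C₂ h2 C₃ h3 ha1 ha2 ha3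
  by_contra hcon
  push Not at hcon
  obtain ⟨h12, h13, h23⟩ := hcon
  obtain ⟨x₁, hx₁⟩ := comps_ne h1
  obtain ⟨x₂, hx₂⟩ := comps_ne h2
  obtain ⟨x₃, hx₃⟩ := comps_ne h3
  obtain ⟨v, hv, he1, he2, s, s', hs, hs', hj⟩ := pair hG hA hS M N f S ι κ Γ hΓ k C₁ h1 C₂ h2 h12
    ha1 ha2 x₁ hx₁ x₂ hx₂
  obtain ⟨v', hv', he1', he3', r, r', hr, hr', hj'⟩ := pair hG hA hS M N f S ι κ Γ hΓ k C₁ h1 C₃ h3
    h13 ha1 ha3 x₁ hx₁ x₃ hx₃
  have e12 : x₁ ≠ x₂ := fun h => comps_disj h1 h2 h12 hx₁ (h ▸ hx₂)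
  have e13 : x₁ ≠ x₃ := fun h => comps_disj h1 h3 h13 hx₁ (h ▸ hx₃)
  have e23 : x₂ ≠ x₃ := fun h => comps_disj h2 h3 h23 hx₂ (h ▸ hx₃)
  -- no jump for the sum
  have hn : Null Γ.pts (v + v') := by
    refine glue_pts hG hΓ k (hs.add hr) (hs'.add hr') ?_
    have key : ∀ a b c d a' b' c' d' : ZMod 2, a + b ≠ c + d → a' + b' ≠ c' + d' →
        (a + a') + (b + b') = (c + c') + (d + d') := by
      decide
    exact key _ _ _ _ _ _ _ _ hj hj'
  -- the sum is not essential at `x₁`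
  have hne1 : ¬ Ess x₁ (v + v') := by
    have h := hE M x₁ ({x₂, x₃}ᶜ : Set M) v v' (S.pt x₁) (Set.toFinite {x₂, x₃}).isClosed.isOpen_compl
      (by
        rintro (h | h)
        · exact e12 h
        · exact e13 h) (hv.mono (by
          rintro y ⟨hy, hy1⟩ (h | h)
          · exact hy1 h
          · exact hy (Or.inl h))) (hv'.mono (by
          rintro y ⟨hy, hy1⟩ (h | h)
          · exact hy1 h
          · exact hy (Or.inr h)))
    intro hess
    exact (h.1 hess) (iff_of_true he1 he1')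
  have hcoc : Coc ({x₁, x₂, x₃}ᶜ : Set M) (v + v') := by
    refine Coc.add (hv.mono ?_) (hv'.mono ?_)
    · rintro y hy (h | h)
      · exact hy (Or.inl h)
      · exact hy (Or.inr (Or.inl h))
    · rintro y hy (h | h)
      · exact hy (Or.inl h)
      · exact hy (Or.inr (Or.inr h))
  obtain ⟨w, hw, hwl⟩ := hX M ({x₁, x₂, x₃} : Set M) ({x₂, x₃} : Set M) (v + v')
    (Set.toFinite _) (fun x hx => Or.inr hx) hcoc (by
      intro y hy hy'
      rcases hy with rfl | hy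
      · exact hne1
      · exact absurd hy hy')
  have hp : ∀ y ∈ Γ.pts, y ∉ ({x₁, x₂, x₃} : Set M) := by
    rintro y hy (rfl | rfl | h)
    · exact comps_sub h1 hx₁ hy
    · exact comps_sub h2 hx₂ hy
    · rw [mem_singleton_iff] at h
      rw [h] at hy
      exact comps_sub h3 hx₃ hy
  have hwn : Null Γ.pts w := by
    obtain ⟨σ, hσ⟩ := hn
    exact ⟨σ, triv_congr (fun y hy => hwl y (hp y hy)) hσ⟩
  have hes : Ess x₂ (v + v') := by
    obtain ⟨D, hD, hDn⟩ := chart_nbhd (S.pt x₂)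
      ((Set.toFinite {x₁, x₃}).isClosed.isOpen_compl.mem_nhds (by
        rintro (h | h)
        · exact e12 h.symm
        · exact e23 h)) hv'
    exact ess_add_punct he2 hD (hDn.mono (fun x hx => hx.1))
  have hes' : Ess x₂ w := by
    by_contra hcon
    refine ess_congr (t := w) (t' := v + v') (W := ({x₁, x₃}ᶜ : Set M)) ?_ ?_ hcon hes
    · exact (Set.toFinite {x₁, x₃}).isClosed.isOpen_compl.mem_nhds (by
        rintro (h | h)
        · exact e12 h.symm
        · exact e23 h)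
    · rintro y ⟨hy, hy2⟩
      obtain ⟨U, hU, hUt⟩ := hwl y (by
        rintro (h | h | h)
        · exact hy (Or.inl h)
        · exact hy2 h
        · exact hy (Or.inr h))
      exact ⟨U, hU, fun a ha b hb => (hUt a ha b hb).symm⟩
  exact no_sep hS S (pts_closed hΓ) h2 h3 h23 hx₂ hx₃ hw hes' hwn

end Pool.Agent.Y32.PB
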